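import Pool.Agent.H576R2.RdvFinal

open MeasureTheory
open Pool.Agent.H576R2.Rdv

/-- Question 2 of `MP_925b40_pr`: on the undirected circle CO-HA-TO has expected meeting time
`3/4`, and it is not an optimal symmetric strategy, since some mixed strategy has expected
meeting time at most `299/400`. -/
theorem Pool.Agent.Results.MP_925b40_pr.CohatoUndirected.result :
    IsProbabilityMeasure cohato ∧ expected payUndirected cohato cohato = 3 / 4 ∧
      (∃ ν : Measure PureStrategy, IsProbabilityMeasure ν ∧
        expected payUndirected ν ν ≤ 299 / 400) ∧
      ¬ IsOptimalSymmetric payUndirected cohato :=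
  undirected_not_optimal
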